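import Pool.Agent.helper98.SP.SpecGA

/-!
# sp:GD2. Duality of gates: not both bits
-/

namespace TP

open DP MeasureTheory

/-- three different crossing clusters from three points of the outer circle -/
theorem GD2_three {c : V → Bool} {x : V} {m n : ℕ} {a b d : V} (ha : a ∈ bd x n) (hb : b ∈ bd x n)
    (hd : d ∈ bd x n) (ha' : ∃ p ∈ bd x m, Conn c true (ann x m n) p a)
    (hb' : ∃ p ∈ bd x m, Conn c true (ann x m n) p b)
    (hd' : ∃ p ∈ bd x m, Conn c true (ann x m n) p d) (n1 : ¬ Conn c true (ann x m n) a b)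
    (n2 : ¬ Conn c true (ann x m n) b d) (n3 : ¬ Conn c true (ann x m n) a d) :
    Three c x m n := by
  obtain ⟨p, hp, hpa⟩ := ha'
  obtain ⟨q, hq, hqb⟩ := hb'
  obtain ⟨r, hr, hrd⟩ := hd'
  exact ⟨p, hp, q, hq, r, hr, ⟨a, ha, hpa⟩, ⟨b, hb, hqb⟩, ⟨d, hd, hrd⟩,
    fun h => n1 ((hpa.symm.trans h).trans hqb), fun h => n2 ((hqb.symm.trans h).trans hrd),
    fun h => n3 ((hpa.symm.trans h).trans hrd)⟩

/-- with exactly two crossing clusters and `hb`, the two clusters are connected in the box -/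
theorem GD2_box {c : V → Bool} {x : V} {m n : ℕ} (h3 : ¬ Three c x m n) (hhb : hb c x m n)
    {a b : V} (ha : a ∈ bd x n) (hb' : b ∈ bd x n)
    (ha1 : ∃ p ∈ bd x m, Conn c true (ann x m n) p a)
    (hb1 : ∃ p ∈ bd x m, Conn c true (ann x m n) p b) (hn : ¬ Conn c true (ann x m n) a b) :
    Conn c true (box x n) a b := by
  obtain ⟨u, hu, v, hv, hu1, ⟨q, hq, hqv⟩, huv, hbox⟩ := hhb
  have hv1 : ∃ p ∈ bd x m, Conn c true (ann x m n) p v := ⟨q, hq, hqv⟩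
  have hsub : ann x m n ⊆ box x n := ann_subset_box x m n
  have key : ∀ w ∈ bd x n, (∃ p ∈ bd x m, Conn c true (ann x m n) p w) →
      Conn c true (ann x m n) a w ∨ Conn c true (ann x m n) b w := by
    intro w hw hw1
    by_contra hcon
    push Not at hcon
    exact h3 (GD2_three ha hb' hw ha1 hb1 hw1 hn hcon.2 hcon.1)
  rcases key u hu hu1 with h1 | h1 <;> rcases key v hv hv1 with h2 | h2
  · exact absurd (h1.symm.trans h2) huv
  · exact ((h1.mono hsub).trans hbox).trans (h2.mono hsub).symm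
  · exact ((h2.mono hsub).trans hbox.symm).trans (h1.mono hsub).symm
  · exact absurd (h1.symm.trans h2) huv

/-- GD2. -/
theorem GD2 (hFO : DP.FO_stmt) (hOF : DP.OF_stmt) (hSI : DP.SI_stmt) (hAC : DP.AC_stmt)
    (hGD1 : GD1_stmt) : GD2_stmt := by
  intro c x m n hx hm hmn hg h1 h2
  obtain ⟨hfour, hthree⟩ := hg
  have hthree' : ¬ Three (fl c) x m n := fun h => hthree ((hGD1 c x m n hx hm hmn).2.1.1 h)
  obtain ⟨u₁, u₂, u₃, u₄, halt, c1, c2, c3, c4, o1, o2, o3, o4⟩ := hFO c x m n hx hm hmn hfour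
  have n13 : ¬ Conn c true (ann x m n) u₁ u₃ :=
    hOF c true x m n hx hm hmn u₁ u₂ u₃ u₄ halt c1 c2 c3 c4 o1 o2 o3 o4
  have halt' : alt x n u₂ u₃ u₄ u₁ := hAC.2.2.1 x n u₁ u₂ u₃ u₄ (by omega) halt
  have n24 : ¬ Conn c false (ann x m n) u₂ u₄ :=
    hOF c false x m n hx hm hmn u₂ u₃ u₄ u₁ halt' c2 c3 c4 c1 o2 o3 o4 o1
  have hfl : ∀ (R : Set V) (u v : V), Conn (fl c) true R u v ↔ Conn c false R u v := by
    intro R u v
    have : {w | w ∈ R ∧ fl c w = true} = {w | w ∈ R ∧ c w = false} := by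
      ext w
      simp [fl]
    unfold Conn
    rw [this]
  have b13 : Conn c true (box x n) u₁ u₃ := by
    obtain ⟨p, hp, hpu⟩ := o1.2
    obtain ⟨q, hq, hqu⟩ := o3.2
    rw [c1] at hpu
    rw [c3] at hqu
    exact GD2_box hthree h1 o1.1 o3.1 ⟨p, hp, hpu.symm⟩ ⟨q, hq, hqu.symm⟩ n13
  have b24 : Conn c false (box x n) u₂ u₄ := by
    obtain ⟨p, hp, hpu⟩ := o2.2
    obtain ⟨q, hq, hqu⟩ := o4.2
    rw [c2, ← hfl] at hpu
    rw [c4, ← hfl] at hqu
    rw [← hfl] at n24 ⊢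
    exact GD2_box hthree' h2 o2.1 o4.1 ⟨p, hp, hpu.symm⟩ ⟨q, hq, hqu.symm⟩ n24
  obtain ⟨w, ⟨-, hw1⟩, -, hw2⟩ := hSI x n u₁ u₂ u₃ u₄ _ _ hx (by omega) halt
    (fun w hw => hw.1) (fun w hw => hw.1) b13 b24
  rw [hw1] at hw2
  exact Bool.noConfusion hw2

end TP
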