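import Pool.Agent.helper33.SP.SpecC1S
import Pool.Agent.helper64.TP.Conv
import Pool.Agent.helper35.DP.BIND

/-!
# sp:UJ17. The part with small conditional probability is small
-/

namespace TP

open DP MeasureTheory

theorem UJ17_gate {c c' : V → Bool} {x : V} {m n : ℕ} (h : ∀ v ∈ ann x m n, c v = c' v) :
    Gate c x m n ↔ Gate c' x m n := by
  simp only [Gate, four, twoCl, Three, Conn.congr h]

theorem UJ17_loc (x : V) (m n : ℕ) : Loc (Ev fun c => Gate c x m n) (ann x m n) :=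
  Loc.ev (ann_finite x m n) fun _ _ h => UJ17_gate h

theorem UJ17_locF (x : V) (m n : ℕ) : Loc (Ev fun c => four c x m n) (ann x m n) := by
  refine Loc.ev (ann_finite x m n) fun c c' h => ?_
  simp only [four, twoCl, Conn.congr h]

theorem UJ17_fin {F : Set (V → Bool)} {A : Set V} (h : Loc F A) : FinR (F.indicator 1) := by
  obtain ⟨Λ, -, h2⟩ := h
  refine ⟨brs Λ, fun b b' hb => ?_⟩
  have h3 : b ∈ F ↔ b' ∈ F := h2.coin' b b' hb
  by_cases h4 : b ∈ F
  · rw [Set.indicator_of_mem h4, Set.indicator_of_mem (h3.1 h4)]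
    rfl
  · rw [Set.indicator_of_notMem h4, Set.indicator_of_notMem fun h5 => h4 (h3.2 h5)]

theorem UJ17_pow {a b : ℕ} (h : a ≤ b) : 2 ^ a ≤ 2 ^ b := Nat.pow_le_pow_right (by norm_num) h

/-- the gates do not depend on the coins in the gap -/
theorem UJ17_gts (x : V) (p m g : ℕ) (hp : g + 4 ≤ p) (b b' : V → Bool)
    (h : ∀ v, v ∉ Ag x p m → b v = b' v) (hb : b ∈ gts x p m g) : b' ∈ gts x p m g := by
  obtain ⟨h1, h2⟩ := hb
  have e1 : 2 ^ p = 2 * 2 ^ (p - 1) := by
    conv_lhs => rw [show p = (p - 1) + 1 by omega, pow_succ]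
    ring
  have e2 : 1 ≤ 2 ^ (p - 1) := Nat.one_le_two_pow
  have e3 : 2 ^ (p + m + 1) = 2 * 2 ^ (p + m) := by rw [pow_succ]; ring
  have e4 : 1 ≤ 2 ^ (p + m) := Nat.one_le_two_pow
  refine ⟨(UJ17_gate ?_).1 h1, (UJ17_gate ?_).1 h2⟩
  · intro w hw
    apply col_congr
    apply h
    rintro ⟨h3, -⟩
    have h4 : sd x w ≤ 2 ^ (p - 1) := hw.2
    have h5 : sd x (br w) ≤ sd x w + sd w (br w) := sd_triangle x w (br w)
    have h6 := sd_br_le w
    omega
  · intro w hw
    apply col_congr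
    apply h
    rintro ⟨-, h3⟩
    have h4 : 2 ^ (p + m + 1) ≤ sd x w := hw.1
    have h5 : sd x w ≤ sd x (br w) + sd (br w) w := sd_triangle x (br w) w
    have h6 := sd_br_le w
    rw [sd_comm] at h6
    omega

theorem UJ17_locT (x : V) (p m g : ℕ) : Loc (thr x p m g) Set.univ :=
  (UJ17_locF x _ _).mono (Set.subset_univ _)

theorem UJ17_locG (x : V) (p m g : ℕ) : Loc (gts x p m g) Set.univ :=
  (Loc.inter (UJ17_loc x (2 ^ (p - g - 1)) (2 ^ (p - 1)))
    (UJ17_loc x (2 ^ (p + m + 1)) (2 ^ (p + m + g + 1)))).mono (Set.subset_univ _)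

/-- the two gates are in disjoint annuli -/
theorem UJ17_ind (hUI7 : UI7_stmt) (p m g : ℕ) (x : V) (hp : g + 4 ≤ p)
    (hx : (x.1 + x.2) % 2 = 0) :
    Pr (gts x p m g) ≤ a4 (p - g - 1) (p - 1) * a4 (p + m + 1) (p + m + g + 1) := by
  have hsub : gts x p m g ⊆ (Ev fun c => four c x (2 ^ (p - g - 1)) (2 ^ (p - 1))) ∩
      (Ev fun c => four c x (2 ^ (p + m + 1)) (2 ^ (p + m + g + 1))) :=
    fun b hb => ⟨hb.1.1, hb.2.1⟩
  have h1 : Pr (gts x p m g) ≤ Pr ((Ev fun c => four c x (2 ^ (p - g - 1)) (2 ^ (p - 1))) ∩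
      (Ev fun c => four c x (2 ^ (p + m + 1)) (2 ^ (p + m + g + 1)))) :=
    measureReal_mono hsub (measure_ne_top _ _)
  refine h1.trans (le_of_eq ?_)
  have hdis : BDis (ann x (2 ^ (p - g - 1)) (2 ^ (p - 1)))
      (ann x (2 ^ (p + m + 1)) (2 ^ (p + m + g + 1))) := by
    apply BDis.of_sd
    intro v hv w hw
    have a1 : sd x v ≤ 2 ^ (p - 1) := hv.2
    have a2 : 2 ^ (p + m + 1) ≤ sd x w := hw.1
    have a3 : sd x w ≤ sd x v + sd v w := sd_triangle x v w
    have a4 : 2 ^ (p + 1) ≤ 2 ^ (p + m + 1) := UJ17_pow (by omega)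
    have a5 : 2 ^ (p + 1) = 4 * 2 ^ (p - 1) := by
      conv_lhs => rw [show p + 1 = (p - 1) + 2 by omega, pow_add]
      ring
    have a6 : 1 ≤ 2 ^ (p - 1) := Nat.one_le_two_pow
    omega
  rw [DP.Bindep_Pr hdis.image (UJ17_locF x _ _).coin (UJ17_locF x _ _).coin,
    (hUI7.2 x _ _ hx).1, (hUI7.2 x _ _ hx).1]
  rfl

/-- UJ17. -/
theorem UJ17 (hUJ5 : UJ5_stmt) (hUI7 : UI7_stmt) : UJ17_stmt := by
  classical
  intro θ p m g x hθ hp hm hx
  obtain ⟨u1, -, -, u4, -, -⟩ := hUJ5
  set A := Ag x p m with hA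
  set G := gts x p m g with hG
  set T := thr x p m g with hT
  have hgT : FinR (T.indicator (1 : (V → Bool) → ℝ)) := UJ17_fin (UJ17_locT x p m g)
  have hgG : FinR (G.indicator (1 : (V → Bool) → ℝ)) := UJ17_fin (UJ17_locG x p m g)
  obtain ⟨hav, -, -, -⟩ := u1 A _ hgT
  -- the conditional probability
  have hcond : ∀ b, av A (T.indicator 1) b = Pr {b' | mx A b b' ∈ T} := by
    intro b
    have hm : MeasurableSet {b' | mx A b b' ∈ T} := by
      obtain ⟨Λ, -, h2⟩ := UJ17_locT x p m g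
      refine DP.Dep.measurableSet (Λ := brs Λ) fun b₁ b₂ hb => ?_
      refine h2.coin' _ _ fun v hv => ?_
      unfold mx
      by_cases hvA : v ∈ A
      · rw [if_pos hvA, if_pos hvA]; exact hb v hv
      · rw [if_neg hvA, if_neg hvA]
    have h1 : ∀ b', T.indicator (1 : (V → Bool) → ℝ) (mx A b b') =
        {b' | mx A b b' ∈ T}.indicator 1 b' := by
      intro b'
      by_cases h : mx A b b' ∈ T
      · rw [Set.indicator_of_mem h, Set.indicator_of_mem (show b' ∈ {b' | mx A b b' ∈ T} from h)]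
        rfl
      · rw [Set.indicator_of_notMem h,
          Set.indicator_of_notMem (show b' ∉ {b' | mx A b b' ∈ T} from h)]
    unfold av
    simp only [h1]
    exact integral_indicator_one hm
  set S : Set (V → Bool) := {b | Pr {b' | mx A b b' ∈ T} < θ} with hS
  have hmx : ∀ b b' : V → Bool, (∀ v, v ∉ A → b v = b' v) → ∀ b'', mx A b b'' = mx A b' b'' := by
    intro b b' h b''
    funext v
    unfold mx
    by_cases hv : v ∈ A
    · rw [if_pos hv, if_pos hv]
    · rw [if_neg hv, if_neg hv]; exact h v hv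
  -- the function without coins in the gap
  have hGS : ∀ b b' : V → Bool, (∀ v, v ∉ A → b v = b' v) → b ∈ G ∩ S → b' ∈ G ∩ S := by
    rintro b b' h ⟨h1, h2⟩
    refine ⟨UJ17_gts x p m g hp b b' h h1, ?_⟩
    have h3 : Pr {b'' | mx A b b'' ∈ T} < θ := h2
    show Pr {b'' | mx A b' b'' ∈ T} < θ
    simp only [← hmx b b' h]
    exact h3
  have hind : ∀ b b' : V → Bool, (∀ v, v ∉ A → b v = b' v) →
      (G ∩ S).indicator (1 : (V → Bool) → ℝ) b = (G ∩ S).indicator 1 b' := by
    intro b b' h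
    by_cases h1 : b ∈ G ∩ S
    · rw [Set.indicator_of_mem h1, Set.indicator_of_mem (hGS b b' h h1)]
      rfl
    · rw [Set.indicator_of_notMem h1, Set.indicator_of_notMem fun h2 =>
        h1 (hGS b' b (fun v hv => (h v hv).symm) h2)]
  have hgh : FinR ((G ∩ S).indicator (1 : (V → Bool) → ℝ)) := by
    obtain ⟨Λ, h1⟩ := hav
    obtain ⟨M, h2⟩ := UJ17_fin (UJ17_locG x p m g)
    refine ⟨Λ ∪ M, fun b b' hb => ?_⟩
    have h3 : b ∈ S ↔ b' ∈ S := by
      show Pr {b'' | mx A b b'' ∈ T} < θ ↔ Pr {b'' | mx A b' b'' ∈ T} < θ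
      rw [← hcond, ← hcond, h1 b b' fun v hv => hb v (by push_cast; exact Or.inl hv)]
    have h4 : G.indicator (1 : (V → Bool) → ℝ) b = G.indicator 1 b' :=
      h2 b b' fun v hv => hb v (by push_cast; exact Or.inr hv)
    by_cases h5 : b ∈ S
    · have h6 := h3.1 h5
      by_cases h7 : b ∈ G
      · have h8 : b' ∈ G := by
          by_contra h8
          rw [Set.indicator_of_mem h7, Set.indicator_of_notMem h8] at h4
          exact one_ne_zero h4
        rw [Set.indicator_of_mem (show b ∈ G ∩ S from ⟨h7, h5⟩),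
          Set.indicator_of_mem (show b' ∈ G ∩ S from ⟨h8, h6⟩)]
        rfl
      · have h8 : b' ∉ G := by
          intro h8
          rw [Set.indicator_of_notMem h7, Set.indicator_of_mem h8] at h4
          exact zero_ne_one h4
        rw [Set.indicator_of_notMem fun h => h7 h.1, Set.indicator_of_notMem fun h => h8 h.1]
    · rw [Set.indicator_of_notMem fun h => h5 h.2,
        Set.indicator_of_notMem fun h => h5 (h3.2 h.2)]
  have hprod : FinR (fun b => (G ∩ S).indicator (1 : (V → Bool) → ℝ) b *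
      T.indicator (1 : (V → Bool) → ℝ) b) := by
    obtain ⟨Λ, h1⟩ := hgh
    obtain ⟨M, h2⟩ := hgT
    refine ⟨Λ ∪ M, fun b b' hb => ?_⟩
    show _ * _ = _ * _
    rw [h1 b b' fun v hv => hb v (by push_cast; exact Or.inl hv),
      h2 b b' fun v hv => hb v (by push_cast; exact Or.inr hv)]
  obtain ⟨hfa, -, hia, hint⟩ := u1 A _ hprod
  have hset : ∀ b, (G ∩ S).indicator (1 : (V → Bool) → ℝ) b * T.indicator (1 : (V → Bool) → ℝ) b =
      (G ∩ T ∩ S).indicator 1 b := by
    intro b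
    by_cases h1 : b ∈ G ∩ S
    · by_cases h2 : b ∈ T
      · rw [Set.indicator_of_mem h1, Set.indicator_of_mem h2,
          Set.indicator_of_mem (show b ∈ G ∩ T ∩ S from ⟨⟨h1.1, h2⟩, h1.2⟩)]
        simp
      · rw [Set.indicator_of_notMem h2,
          Set.indicator_of_notMem (show b ∉ G ∩ T ∩ S from fun h => h2 h.1.2), mul_zero]
    · rw [Set.indicator_of_notMem h1,
        Set.indicator_of_notMem (show b ∉ G ∩ T ∩ S from fun h => h1 ⟨h.1.1, h.2⟩), zero_mul]
  have hmeas : MeasurableSet (G ∩ T ∩ S) := by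
    obtain ⟨Λ, h1⟩ := hprod
    refine DP.Dep.measurableSet (Λ := Λ) fun b b' hb => ?_
    have h2 := h1 b b' hb
    simp only [hset] at h2
    constructor
    · intro h3
      by_contra h4
      rw [Set.indicator_of_mem h3, Set.indicator_of_notMem h4] at h2
      exact one_ne_zero h2
    · intro h3
      by_contra h4
      rw [Set.indicator_of_mem h3, Set.indicator_of_notMem h4] at h2
      exact zero_ne_one h2
  have hPr : Pr (G ∩ T ∩ S) = ∫ b, (G ∩ S).indicator (1 : (V → Bool) → ℝ) b *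
      T.indicator (1 : (V → Bool) → ℝ) b ∂P1 := by
    simp only [hset]
    exact (integral_indicator_one hmeas).symm
  rw [hPr, ← hint]
  have hpt : ∀ b, av A (fun b => (G ∩ S).indicator (1 : (V → Bool) → ℝ) b *
      T.indicator (1 : (V → Bool) → ℝ) b) b ≤ θ * G.indicator (1 : (V → Bool) → ℝ) b := by
    intro b
    rw [u4 A _ _ hgT hgh hind b, hcond]
    by_cases h1 : b ∈ G ∩ S
    · rw [Set.indicator_of_mem h1, Set.indicator_of_mem h1.1]
      have h2 : Pr {b' | mx A b b' ∈ T} < θ := h1.2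
      simp only [Pi.one_apply, one_mul, mul_one]
      exact h2.le
    · rw [Set.indicator_of_notMem h1, zero_mul]
      exact mul_nonneg hθ (Set.indicator_nonneg (fun _ _ => zero_le_one) _)
  have hGm : MeasurableSet G := (UJ17_locG x p m g).measurableSet
  have hmono := integral_mono (u1 A _ hfa).2.2.1 ((u1 A _ hgG).2.2.1.const_mul θ) hpt
  refine hmono.trans ?_
  rw [integral_const_mul, integral_indicator_one hGm]
  exact mul_le_mul_of_nonneg_left (UJ17_ind hUI7 p m g x hp hx) hθ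

end TP
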